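import Pool.Agent.Q100.CT.Stm

/-! # Project CT of helper100: job LIFT, lifting along the dilations -/

set_option autoImplicit false

namespace Pool.Agent.Q79.CT.Lift

open Pool.Agent.Q100.CT

section

variable {n : ℕ}

theorem cl_iff {N : Subgroup (FreeGroup (Fin n))} [N.Normal] {r : ℕ} {u v : FreeGroup (Fin n)} :
    Cl N r u v ↔ ∃ w : FreeGroup (Fin n), w.norm ≤ r ∧
      QuotientGroup.mk' N u * QuotientGroup.mk' N w = QuotientGroup.mk' N v := by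
  unfold Cl
  refine exists_congr fun w => and_congr_right fun _ => ?_
  rw [← map_mul, QuotientGroup.mk'_eq_mk', mul_assoc]
  constructor
  · intro h
    refine ⟨(v⁻¹ * (u * w))⁻¹, N.inv_mem h, by group⟩
  · rintro ⟨z, hz, h⟩
    have h1 : v⁻¹ * (u * w) = z⁻¹ := by
      rw [← h]
      group
    rw [h1]
    exact N.inv_mem hz

theorem mem_iff {N : Subgroup (FreeGroup (Fin n))} [N.Normal] {w : FreeGroup (Fin n)} :
    w ∈ N ↔ QuotientGroup.mk' N w = 1 := by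
  rw [← MonoidHom.mem_ker, QuotientGroup.ker_mk']

theorem mem_iff2 {N : Subgroup (FreeGroup (Fin n))} [N.Normal] {u v : FreeGroup (Fin n)} :
    u⁻¹ * v ∈ N ↔ QuotientGroup.mk' N v = QuotientGroup.mk' N u := by
  rw [mem_iff, map_mul, map_inv, inv_mul_eq_one, eq_comm]

end

variable {V Z : Type} [NormedAddCommGroup V] [InnerProductSpace ℝ V]
  [NormedAddCommGroup Z] [NormedSpace ℝ Z] {n : ℕ}

/-- `H` is a lift on the ball of radius `r` -/
def Good (B : Form V Z) (M N : Subgroup (FreeGroup (Fin n))) (A : ℕ) (T : ℝ)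
    (h : V × Z → FreeGroup (Fin n)) (r : ℝ) (H : V × Z → FreeGroup (Fin n)) : Prop :=
  (∀ x, (h x)⁻¹ * H x ∈ N) ∧
    ∀ x y : V × Z, nrm x ≤ r → nrm y ≤ r → rho B x y ≤ T → Cl M A (H x) (H y)

/-- the norms of products of short words -/
theorem norm3 {A : ℕ} {a b c : FreeGroup (Fin n)} (ha : a.norm ≤ A) (hb : b.norm ≤ A) (hc : c.norm ≤ A) :
    (a⁻¹ * b * c).norm ≤ 5 * A := by
  have h1 := FreeGroup.norm_mul_le (a⁻¹ * b) c
  have h2 := FreeGroup.norm_mul_le a⁻¹ b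
  rw [FreeGroup.norm_inv_eq] at h2
  omega

theorem norm4 {A : ℕ} {a b c d : FreeGroup (Fin n)} (ha : a.norm ≤ A) (hb : b.norm ≤ A) (hc : c.norm ≤ A)
    (hd : d.norm ≤ A) : (a⁻¹ * b⁻¹ * c * d).norm ≤ 5 * A := by
  have h0 := FreeGroup.norm_mul_le (a⁻¹ * b⁻¹ * c) d
  have h1 := FreeGroup.norm_mul_le (a⁻¹ * b⁻¹) c
  have h2 := FreeGroup.norm_mul_le a⁻¹ b⁻¹
  rw [FreeGroup.norm_inv_eq, FreeGroup.norm_inv_eq] at h2
  omega

theorem base (B : Form V Z) (M N : Subgroup (FreeGroup (Fin n))) (A : ℕ) (T : ℝ)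
    (h : V × Z → FreeGroup (Fin n)) (hM : M.Normal) (hN : N.Normal)
    (hsh : ∀ w ∈ N, w.norm ≤ 5 * A → w ∈ M) (hT : 0 < T)
    (hh : ∀ x y, rho B x y ≤ T → Cl N A (h x) (h y)) : ∃ H, Good B M N A T h (T / 2) H := by
  classical
  have h1 : ∀ x : V × Z, nrm x ≤ T / 2 → ∃ w : FreeGroup (Fin n), w.norm ≤ A ∧
      QuotientGroup.mk' N (h 0) * QuotientGroup.mk' N w = QuotientGroup.mk' N (h x) := by
    intro x hx
    rw [← cl_iff]
    apply hh
    rw [rho_zero]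
    linarith
  choose! w hw1 hw2 using h1
  refine ⟨fun x => if nrm x ≤ T / 2 then h 0 * w x else h x, ?_, ?_⟩
  · intro x
    rw [mem_iff2]
    by_cases hx : nrm x ≤ T / 2
    · simp only [if_pos hx]
      rw [map_mul]
      exact hw2 x hx
    · simp only [if_neg hx]
  · intro x y hx hy hxy
    simp only [if_pos hx, if_pos hy]
    obtain ⟨t, ht1, ht2⟩ := cl_iff.1 (hh x y hxy)
    rw [← hw2 x hx, ← hw2 y hy] at ht2
    have h2 : (w y)⁻¹ * w x * t ∈ N := by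
      rw [mul_assoc, mem_iff2, map_mul]
      rw [mul_assoc] at ht2
      exact mul_left_cancel ht2
    have h3 := hsh _ h2 (norm3 (hw1 y hy) (hw1 x hx) ht1)
    rw [cl_iff]
    refine ⟨t, ht1, ?_⟩
    rw [mul_assoc, mem_iff2, map_mul] at h3
    rw [map_mul, map_mul, mul_assoc, h3]

theorem dist_dil (B : Form V Z) {r μ : ℝ} {T : ℝ} (hr : 0 < r) (hT : 0 < T) (hμ1 : 1 ≤ μ)
    (hμ : (μ * r) ^ 2 = r ^ 2 + T ^ 2) (x : V × Z) (hx : nrm x ≤ μ * r) :
    nrm (dil μ⁻¹ x) ≤ r ∧ rho B (dil μ⁻¹ x) x ≤ T := by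
  have hμ0 : 0 < μ := by linarith
  constructor
  · rw [nrm_dil, abs_of_pos (inv_pos.2 hμ0)]
    calc μ⁻¹ * nrm x ≤ μ⁻¹ * (μ * r) := mul_le_mul_of_nonneg_left hx (inv_pos.2 hμ0).le
      _ = r := by field_simp
  · have h1 : mul B (-(dil μ⁻¹ x)) x = ((1 - μ⁻¹) • x.1, (1 - μ⁻¹ ^ 2) • x.2) := by
      apply Prod.ext
      · simp only [mul_fst, Prod.fst_neg, dil_fst]
        module
      · simp only [mul_snd, Prod.fst_neg, Prod.snd_neg, dil_fst, dil_snd, map_neg, map_smul,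
          LinearMap.neg_apply, LinearMap.smul_apply, B.alt]
        module
    unfold rho
    rw [h1, nrm_le_iff hT.le]
    have h2 := Pool.Agent.Q100.CT.norm_fst_le x
    have h3 := Pool.Agent.Q100.CT.norm_snd_le x
    have h4 : μ⁻¹ ≤ 1 := inv_le_one_of_one_le₀ hμ1
    have h5 : 0 ≤ μ⁻¹ := (inv_pos.2 hμ0).le
    have h6 : μ⁻¹ ^ 2 ≤ 1 := pow_le_one₀ h5 h4
    have h7 := nrm_nonneg x
    constructor
    · change ‖(1 - μ⁻¹) • x.1‖ ≤ T
      rw [norm_smul, Real.norm_eq_abs, abs_of_nonneg (by linarith)]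
      have h8 : (1 - μ⁻¹) * ‖x.1‖ ≤ (1 - μ⁻¹) * (μ * r) :=
        mul_le_mul_of_nonneg_left (h2.trans hx) (by linarith)
      have h9 : (1 - μ⁻¹) * (μ * r) = μ * r - r := by field_simp
      have h10 : μ * r ≤ r + T := by
        apply le_of_pow_le_pow_left₀ (n := 2) (by norm_num) (by linarith)
        rw [hμ]
        nlinarith
      linarith
    · change ‖(1 - μ⁻¹ ^ 2) • x.2‖ ≤ T ^ 2
      rw [norm_smul, Real.norm_eq_abs, abs_of_nonneg (by linarith)]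
      have h8 : (1 - μ⁻¹ ^ 2) * ‖x.2‖ ≤ (1 - μ⁻¹ ^ 2) * (μ * r) ^ 2 :=
        mul_le_mul_of_nonneg_left (h3.trans (pow_le_pow_left₀ h7 hx 2)) (by linarith)
      have h9 : (1 - μ⁻¹ ^ 2) * (μ * r) ^ 2 = (μ * r) ^ 2 - r ^ 2 := by field_simp
      linarith

theorem step (B : Form V Z) (M N : Subgroup (FreeGroup (Fin n))) (A : ℕ) (T : ℝ)
    (h : V × Z → FreeGroup (Fin n)) (hM : M.Normal) (hN : N.Normal) (hMN : M ≤ N)
    (hsh : ∀ w ∈ N, w.norm ≤ 5 * A → w ∈ M) (hT : 0 < T)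
    (hh : ∀ x y, rho B x y ≤ T → Cl N A (h x) (h y)) (r R : ℝ) (hr : 0 < r) (hR0 : 0 ≤ R)
    (hR : R ^ 2 = r ^ 2 + T ^ 2) (H : V × Z → FreeGroup (Fin n)) (hH : Good B M N A T h r H) :
    ∃ H' : V × Z → FreeGroup (Fin n), Good B M N A T h R H' ∧ ∀ x, nrm x ≤ r → H' x = H x := by
  classical
  obtain ⟨μ, hμ⟩ : ∃ μ : ℝ, μ = R / r := ⟨_, rfl⟩
  have hμr : μ * r = R := by
    rw [hμ]
    field_simp
  have hrR : r ≤ R := by
    apply le_of_pow_le_pow_left₀ (n := 2) (by norm_num) hR0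
    rw [hR]
    nlinarith
  have hμ1 : 1 ≤ μ := by
    rw [hμ, one_le_div hr]
    exact hrR
  have hμ0 : 0 < μ := by linarith
  obtain ⟨d, hd⟩ : ∃ d : V × Z → V × Z, ∀ x, d x = dil μ⁻¹ x := ⟨_, fun _ => rfl⟩
  have hdd : ∀ x, nrm x ≤ R → nrm (d x) ≤ r ∧ rho B (d x) x ≤ T := by
    intro x hx
    rw [hd]
    rw [← hμr] at hx hR
    exact dist_dil B hr hT hμ1 hR x hx
  have hdxy : ∀ x y, rho B x y ≤ T → rho B (d x) (d y) ≤ T := by
    intro x y hxy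
    rw [hd, hd, rho_dil, abs_of_pos (inv_pos.2 hμ0)]
    have h4 : μ⁻¹ ≤ 1 := inv_le_one_of_one_le₀ hμ1
    have h5 := rho_nonneg B x y
    calc μ⁻¹ * rho B x y ≤ 1 * rho B x y := mul_le_mul_of_nonneg_right h4 h5
      _ ≤ T := by linarith
  have h1 : ∀ x : V × Z, nrm x ≤ R → ∃ w : FreeGroup (Fin n), w.norm ≤ A ∧
      QuotientGroup.mk' N (h (d x)) * QuotientGroup.mk' N w = QuotientGroup.mk' N (h x) := by
    intro x hx
    rw [← cl_iff]
    exact hh _ _ (hdd x hx).2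
  choose! w hw1 hw2 using h1
  obtain ⟨H', hH'⟩ : ∃ H' : V × Z → FreeGroup (Fin n), ∀ x, H' x =
      if nrm x ≤ r then H x else if nrm x ≤ R then H (d x) * w x else H x := ⟨_, fun _ => rfl⟩
  have hHN : ∀ x, QuotientGroup.mk' N (H x) = QuotientGroup.mk' N (h x) := fun x => mem_iff2.1 (hH.1 x)
  have hH'N : ∀ x, QuotientGroup.mk' N (H' x) = QuotientGroup.mk' N (h x) := by
    intro x
    rw [hH']
    split_ifs with h2 h3
    · exact hHN x
    · rw [map_mul, hHN]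
      exact hw2 x h3
    · exact hHN x
  have hu : ∀ x, nrm x ≤ R → ∃ u : FreeGroup (Fin n), u.norm ≤ A ∧
      QuotientGroup.mk' M (H (d x)) * QuotientGroup.mk' M u = QuotientGroup.mk' M (H' x) := by
    intro x hx
    by_cases h2 : nrm x ≤ r
    · rw [hH', if_pos h2, ← cl_iff]
      exact hH.2 _ _ (hdd x hx).1 h2 (hdd x hx).2
    · rw [hH', if_neg h2, if_pos hx]
      exact ⟨w x, hw1 x hx, by rw [map_mul]⟩
  refine ⟨H', ⟨fun x => mem_iff2.2 (hH'N x), ?_⟩, fun x hx => by rw [hH', if_pos hx]⟩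
  intro x y hx hy hxy
  obtain ⟨a, ha1, ha2⟩ := hu x hx
  obtain ⟨b, hb1, hb2⟩ := hu y hy
  obtain ⟨c, hc1, hc2⟩ := cl_iff.1 (hH.2 _ _ (hdd x hx).1 (hdd y hy).1 (hdxy x y hxy))
  obtain ⟨t, ht1, ht2⟩ := cl_iff.1 (hh x y hxy)
  -- modulo `M` the element `(H' y)⁻¹ * H' x * t` is the short word `b⁻¹ * c⁻¹ * a * t`
  have h2 : QuotientGroup.mk' M ((H' y)⁻¹ * H' x * t) = QuotientGroup.mk' M (b⁻¹ * c⁻¹ * a * t) := by
    simp only [map_mul, map_inv]
    rw [← ha2, ← hb2, ← hc2]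
    group
  have h3 : (b⁻¹ * c⁻¹ * a * t)⁻¹ * ((H' y)⁻¹ * H' x * t) ∈ N := hMN (mem_iff2.2 h2)
  have h4 : (H' y)⁻¹ * H' x * t ∈ N := by
    rw [mul_assoc, mem_iff2, map_mul, hH'N, hH'N]
    exact ht2
  have h5 : b⁻¹ * c⁻¹ * a * t ∈ N := by
    have h6 := N.mul_mem h4 (N.inv_mem h3)
    have h7 : (H' y)⁻¹ * H' x * t * ((b⁻¹ * c⁻¹ * a * t)⁻¹ * ((H' y)⁻¹ * H' x * t))⁻¹ =
        b⁻¹ * c⁻¹ * a * t := by group
    rwa [h7] at h6
  have h6 := hsh _ h5 (norm4 hb1 hc1 ha1 ht1)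
  rw [mem_iff, ← h2] at h6
  rw [cl_iff]
  refine ⟨t, ht1, ?_⟩
  rw [← mem_iff, mul_assoc, mem_iff2, map_mul] at h6
  exact h6

theorem lift : S_lift := by
  intro V Z _ _ _ _ B n M N A T h hM hN hMN hsh hT hh
  classical
  obtain ⟨R, hR⟩ : ∃ R : ℕ → ℝ, ∀ k, R k = √(T ^ 2 / 4 + k * T ^ 2) := ⟨_, fun _ => rfl⟩
  have hRpos : ∀ k, 0 < R k := by
    intro k
    rw [hR]
    positivity
  have hRsq : ∀ k, R k ^ 2 = T ^ 2 / 4 + k * T ^ 2 := by
    intro k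
    rw [hR, Real.sq_sqrt (by positivity)]
  have hstep : ∀ (k : ℕ) (H : V × Z → FreeGroup (Fin n)), Good B M N A T h (R k) H →
      ∃ H' : V × Z → FreeGroup (Fin n), Good B M N A T h (R (k + 1)) H' ∧ ∀ x, nrm x ≤ R k → H' x = H x := by
    intro k H hH
    refine step B M N A T h hM hN hMN hsh hT hh (R k) (R (k + 1)) (hRpos k) (hRpos (k + 1)).le ?_ H hH
    rw [hRsq, hRsq]
    push_cast
    ring
  choose! st hst1 hst2 using hstep
  obtain ⟨H0, hH0⟩ := base B M N A T h hM hN hsh hT hh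
  have hR0 : R 0 = T / 2 := by
    have h1 : R 0 ^ 2 = (T / 2) ^ 2 := by
      rw [hRsq]
      push_cast
      ring
    exact (pow_left_inj₀ (hRpos 0).le (by linarith) (by norm_num)).1 h1
  obtain ⟨Hs, hHs0, hHs1⟩ : ∃ Hs : ℕ → V × Z → FreeGroup (Fin n), Hs 0 = H0 ∧ ∀ k, Hs (k + 1) = st k (Hs k) :=
    ⟨fun k => Nat.rec H0 (fun k H => st k H) k, rfl, fun _ => rfl⟩
  have hgood : ∀ k, Good B M N A T h (R k) (Hs k) := by
    intro k
    induction k with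
    | zero => rw [hHs0, hR0]; exact hH0
    | succ k ih => rw [hHs1]; exact hst1 k _ ih
  have hmono : Monotone R := by
    apply monotone_nat_of_le_succ
    intro k
    apply le_of_pow_le_pow_left₀ (n := 2) (by norm_num) (hRpos _).le
    rw [hRsq, hRsq]
    push_cast
    nlinarith [sq_nonneg T]
  have hstab : ∀ (k m : ℕ), k ≤ m → ∀ x, nrm x ≤ R k → Hs m x = Hs k x := by
    intro k m hkm
    induction m, hkm using Nat.le_induction with
    | base => intro x _; rfl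
    | succ m hm ih =>
      intro x hx
      rw [hHs1, hst2 m _ (hgood m) x (hx.trans (hmono hm)), ih x hx]
  have hex : ∀ x : V × Z, ∃ k, nrm x ≤ R k := by
    intro x
    obtain ⟨k, hk⟩ := exists_nat_ge (nrm x ^ 2 / T ^ 2)
    refine ⟨k, ?_⟩
    apply le_of_pow_le_pow_left₀ (n := 2) (by norm_num) (hRpos _).le
    rw [hRsq]
    rw [div_le_iff₀ (by positivity)] at hk
    nlinarith [sq_nonneg T]
  choose κ hκ using hex
  refine ⟨fun x => Hs (κ x) x, fun x => (hgood _).1 x, ?_⟩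
  intro x y hxy
  have h1 := hstab (κ x) (max (κ x) (κ y)) (le_max_left _ _) x (hκ x)
  have h2 := hstab (κ y) (max (κ x) (κ y)) (le_max_right _ _) y (hκ y)
  have h3 := (hgood (max (κ x) (κ y))).2 x y ((hκ x).trans (hmono (le_max_left _ _)))
    ((hκ y).trans (hmono (le_max_right _ _))) hxy
  rw [h1, h2] at h3
  exact h3

end Pool.Agent.Q79.CT.Lift
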